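import Pool.Agent.Helper411_AS.AffineFamilies

/-!
# Puncturing varieties dominated by families of affine spaces
-/

set_option autoImplicit false

open CategoryTheory AlgebraicGeometry Limits
open Pool.Agent.Helper411_AS

universe u

namespace Pool.Agent.Results.MP_84b56d_ag.AffineFamilies

/-- Let `k` be an algebraically closed field of characteristic zero and `X` an
arithmetically-special variety over `k`.  Let `V` be an arithmetically-special variety over `k`,
let `n` be a finite type and let `h : 𝔸(n; V) ⟶ X` be a dominant morphism over `k` from the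
affine space over `V`, that is, from the product of `V` and an affine space.  Let `U` be an open
subset of `X` with complement `Z` such that all points of the closed subset `h ⁻¹ Z` have
codimension at least two in `𝔸(n; V)` and such that `h ⁻¹ Z` contains no fibre of
`𝔸(n; V) ⟶ V`.  Then `U`, the complement of `Z` in `X`, is arithmetically-special over `k`. -/
theorem result {k : Type u} [Field k] [IsAlgClosed k] [CharZero k]
    {X : Scheme.{u}} (s : X ⟶ Spec (.of k)) (_hX : IsVariety s) (hAS : ArithmeticallySpecial s)
    {V : Scheme.{u}} (v : V ⟶ Spec (.of k)) (hV : IsVariety v)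
    (hVAS : ArithmeticallySpecial v) (n : Type u) [Finite n]
    (h : 𝔸(n; V) ⟶ X) (hh : h ≫ s = (𝔸(n; V) ↘ V) ≫ v) (hdom : IsDominant h)
    (U : X.Opens)
    (hU : ∀ z : 𝔸(n; V), h z ∉ U → 2 ≤ ringKrullDim (𝔸(n; V).presheaf.stalk z))
    (hfib : ∀ x : V, ∃ z : 𝔸(n; V), (𝔸(n; V) ↘ V) z = x ∧ h z ∈ U) :
    ArithmeticallySpecial (U.ι ≫ s) := by
  have := hV.isIntegral
  refine arithmeticallySpecial_of_affineSpaces hAS.hasModel hVAS n h hh U ?_ hfib
  intro z hz
  have h1 := hU z hz
  rw [ringKrullDim_stalk_eq_coheight] at h1
  exact WithBot.coe_le_coe.mp h1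

end Pool.Agent.Results.MP_84b56d_ag.AffineFamilies
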