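import Pool.Agent.Helper411_AS.ConstantFinal

/-!
# Puncturing varieties dominated by families of maps from a variety over a smaller field
-/

set_option autoImplicit false

open CategoryTheory AlgebraicGeometry Limits
open Pool.Agent.Helper411_AS

universe u

namespace Pool.Agent.Results.MP_84b56d_ag.ConstantFamilies

/-- Let `K` and `k` be algebraically closed fields of characteristic zero, `K` a subfield of `k`
different from `k`.  Let `W₀` be an arithmetically-special variety over `K` and let `W` be its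
base change to `k`.  Let `T` be a variety over `k`, let `X` be an arithmetically-special variety
over `k` and let `Ψ : T ×ₖ W ⟶ X` be a morphism over `k`.  Let `U` be an open subset of `X` with
complement `Z`.  Assume

* `h₁`: for every rational point `P` of `T` over `k`, with section `c : W ⟶ T ×ₖ W`,
  `x ↦ (P, x)`, the morphism `Ψ_P = Ψ ∘ c : W ⟶ X` is dominant, and all points of `Ψ_P ⁻¹ Z`
  have codimension at least two in `W`;
* `h₂`: for every rational point `y₀` of `W₀` over `K`, with corresponding point `y` of `W` over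
  `k` and section `e : T ⟶ T ×ₖ W`, `τ ↦ (τ, y)`, the image of `Ψ ∘ e : T ⟶ X` is not contained
  in `Z`.

Then `U`, the complement of `Z` in `X`, is arithmetically-special over `k`. -/
theorem result {K k : Type u} [Field K] [IsAlgClosed K] [CharZero K] [Field k] [IsAlgClosed k]
    [Algebra K k] (hKk : ¬ Function.Surjective (algebraMap K k))
    {W₀ : Scheme.{u}} (w₀ : W₀ ⟶ Spec (.of K)) (hW₀ : IsVariety w₀)
    (hW₀AS : ArithmeticallySpecial w₀)
    {W : Scheme.{u}} (w : W ⟶ Spec (.of k)) (hW : IsVariety w) (g : W ⟶ W₀)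
    (hg : IsPullback g w w₀ (specMap K k))
    {T : Scheme.{u}} (t : T ⟶ Spec (.of k)) (hT : IsVariety t)
    {X : Scheme.{u}} (s : X ⟶ Spec (.of k)) (_hX : IsVariety s) (hAS : ArithmeticallySpecial s)
    (Ψ : pullback t w ⟶ X) (hΨ : Ψ ≫ s = pullback.fst t w ≫ t) (U : X.Opens)
    (h₁ : ∀ (P : Spec (.of k) ⟶ T) (c : W ⟶ pullback t w), P ≫ t = 𝟙 _ →
      c ≫ pullback.fst t w = w ≫ P → c ≫ pullback.snd t w = 𝟙 W →
      IsDominant (c ≫ Ψ) ∧
        ∀ z : W, (c ≫ Ψ) z ∉ U → 2 ≤ ringKrullDim (W.presheaf.stalk z))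
    (h₂ : ∀ (y₀ : Spec (.of K) ⟶ W₀) (y : Spec (.of k) ⟶ W) (e : T ⟶ pullback t w),
      y₀ ≫ w₀ = 𝟙 _ → y ≫ w = 𝟙 _ → y ≫ g = specMap K k ≫ y₀ →
      e ≫ pullback.fst t w = 𝟙 T → e ≫ pullback.snd t w = t ≫ y →
      ∃ τ : T, (e ≫ Ψ) τ ∈ U) :
    ArithmeticallySpecial (U.ι ≫ s) := by
  have := hW₀.isIntegral
  have := hW₀.isSeparated
  have := hW₀.locallyOfFiniteType
  have := hW₀.quasiCompact
  have := hW.isIntegral
  have := hT.isIntegral
  have := hT.locallyOfFiniteType
  have hk : CharZero k := charZero_of_injective_algebraMap (algebraMap K k).injective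
  refine arithmeticallySpecial_of_constant_family hKk hW₀AS hg hAS.hasModel Ψ hΨ U ?_ ?_
  · intro P hP
    obtain ⟨h3, h4⟩ := h₁ P (cosection t w P hP) hP (cosection_fst t w P hP)
      (cosection_snd t w P hP)
    refine ⟨h3, ?_⟩
    intro z hz
    have h5 := h4 z hz
    rw [ringKrullDim_stalk_eq_coheight] at h5
    exact WithBot.coe_le_coe.mp h5
  · intro y₀ hy₀
    exact h₂ y₀ (ptL hg y₀ hy₀) (slice t w (ptL hg y₀ hy₀) (ptL_s hg y₀ hy₀)) hy₀
      (ptL_s hg y₀ hy₀) (ptL_g hg y₀ hy₀) (slice_fst _ _) (slice_snd _ _)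

end Pool.Agent.Results.MP_84b56d_ag.ConstantFamilies
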