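import Pool.Agent.Helper411_AS.Core

/-!
# Puncturing varieties with a dense orbit of a finitely generated automorphism group
-/

set_option autoImplicit false

open CategoryTheory AlgebraicGeometry Limits
open Pool.Agent.Helper411_AS

universe u

namespace Pool.Agent.Results.MP_84b56d_ag.DenseOrbits

/-- Let `k` be an algebraically closed field of characteristic zero and of infinite transcendence
degree over `ℚ` (for instance the complex numbers), and let `X` be an arithmetically-special
variety over `k` with a finitely generated group `G` of automorphisms over `k` and a closed point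
`x₀` whose `G`-orbit is Zariski dense.  Then for every open subset `U` of `X` all of whose missing
points have codimension at least two in `X`, the open subvariety `U` is
arithmetically-special over `k`. -/
theorem result {k : Type u} [Field k] [IsAlgClosed k] [CharZero k]
    (hk : Cardinal.aleph0 ≤ Algebra.trdeg ℚ k)
    {X : Scheme.{u}} (s : X ⟶ Spec (.of k)) (hX : IsVariety s)
    (hAS : ArithmeticallySpecial s)
    (G : Subgroup (Aut (Over.mk s))) (hG : G.FG)
    (x₀ : X) (hx₀ : IsClosed {x₀}) (horbit : Dense {x : X | ∃ γ ∈ G, γ.hom.left x₀ = x})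
    (U : X.Opens) (hU : ∀ z : X, z ∉ U → 2 ≤ ringKrullDim (X.presheaf.stalk z)) :
    ArithmeticallySpecial (U.ι ≫ s) := by
  have := hX.isIntegral
  obtain ⟨A₀, 𝒳, π, g, hA₀, hsep, hft, hqc, hp, -⟩ := hAS
  have hln := isLocallyNoetherian_model hA₀ π
  have hAn : IsNoetherianRing (CommRingCat.of A₀) :=
    Helper411_AS.isNoetherianRing_of_fg hA₀
  have hfp : LocallyOfFinitePresentation π :=
    (LocallyOfFinitePresentation.iff_locallyOfFiniteType).mpr hft
  have hsft : LocallyOfFiniteType s := MorphismProperty.of_isPullback hp inferInstance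
  have hsqc : QuasiCompact s := MorphismProperty.of_isPullback hp inferInstance
  have hlnX : IsLocallyNoetherian X := LocallyOfFiniteType.isLocallyNoetherian s
  have hcs : CompactSpace X := QuasiCompact.compactSpace_of_compactSpace s
  have hn : IsNoetherian X := {}
  obtain ⟨B₁, hB₁⟩ := exists_ext_group π hp hA₀ G hG
  obtain ⟨B₂, W₂, hW₂⟩ := exists_open π hp hA₀ U (TopologicalSpace.NoetherianSpace.isCompact _)
  obtain ⟨B, hB₁B, hB₂B⟩ := exists_ge_ge B₁ B₂
  have hw : ∀ γ : Aut (Over.mk s), γ.hom.left ≫ s = s := fun γ => Over.w γ.hom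
  have hUW : bcg π hp B ⁻¹ᵁ (bcI π hB₂B ⁻¹ᵁ W₂) = U := by
    rw [← Scheme.Hom.comp_preimage, bcg_bcI, hW₂]
  rw [← hUW]
  refine arithmeticallySpecial_of_dense_orbits B.fg (aleph0_le_trdeg hk B.alg B.fg)
    (bcπ π B) (bcg π hp B) (bcg_isPullback π hp B) {f | ∃ γ ∈ G, f = γ.hom.left} ?_ ?_ ?_ ?_ _ ?_
  · rintro _ ⟨γ, -, rfl⟩
    exact hw γ
  · rintro _ ⟨γ, hγ, rfl⟩
    exact Ext.mono π hp (hw γ) hB₁B (hB₁ γ hγ)
  · rintro _ ⟨γ, -, rfl⟩
    have : IsIso γ.hom.left := ((Over.forget _).mapIso γ).isIso_hom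
    exact genericPoint_eq_of_isOpenImmersion _
  · refine horbit.mono ?_
    rintro _ ⟨γ, hγ, rfl⟩
    refine ⟨pointOfClosedPoint s x₀ hx₀ ≫ γ.hom.left, ?_, ?_, ?_⟩
    · rw [Category.assoc, hw γ, pointOfClosedPoint_comp]
    · rw [atPt_comp]
      congr 1
      exact pointOfClosedPoint_apply s x₀ hx₀ _
    · refine horbit.mono ?_
      rintro _ ⟨δ, hδ, rfl⟩
      refine ⟨_, ⟨δ * γ⁻¹, G.mul_mem hδ (G.inv_mem hγ), rfl⟩, ?_⟩
      have h1 : γ.hom.left ≫ (δ * γ⁻¹).hom.left = δ.hom.left := by
        rw [← Over.comp_left]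
        congr 1
        exact γ.hom_inv_id_assoc δ.hom
      rw [← h1, Scheme.Hom.comp_apply]
  · intro z hz
    rw [hUW] at hz
    have h1 := hU z hz
    rw [ringKrullDim_stalk_eq_coheight] at h1
    exact WithBot.coe_le_coe.mp h1

end Pool.Agent.Results.MP_84b56d_ag.DenseOrbits
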