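import Pool.Agent.Helper411_AS.MovingFinal

/-!
# Puncturing varieties by moving an arithmetically-special subvariety
-/

set_option autoImplicit false

open CategoryTheory AlgebraicGeometry Limits
open Pool.Agent.Helper411_AS

universe u

namespace Pool.Agent.Results.MP_84b56d_ag.MovingOrbits

/-- Let `k` be an algebraically closed field of characteristic zero, `X` an
arithmetically-special variety over `k`, `G` a finitely generated group of automorphisms of `X`
over `k`, and `Z` a closed subset of `X` with open complement `U` such that the union of the
translates of `Z` under `G` is not Zariski dense in `X`.  Let `σ : W ⟶ X` be a morphism from a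
variety `W` over `k` whose image avoids `Z`, such that the union of the translates of `σ(W)`
is Zariski dense in `X`, and such that `W` is arithmetically-special through the set of
those points `w` for which the orbit `G σ(w)` has irreducible closure.  Then the complement of
`Z` in `X` is arithmetically-special over `k`. -/
theorem result {k : Type u} [Field k] [IsAlgClosed k] [CharZero k]
    {X : Scheme.{u}} (s : X ⟶ Spec (.of k)) (hX : IsVariety s)
    (hAS : ArithmeticallySpecial s)
    (G : Subgroup (Aut (Over.mk s))) (hG : G.FG)
    (U : X.Opens) (hU : ¬ Dense {x : X | ∃ γ ∈ G, ∃ z : X, z ∉ U ∧ γ.hom.left z = x})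
    {W : Scheme.{u}} (t : W ⟶ Spec (.of k)) (_hW : IsVariety t)
    (σ : W ⟶ X) (hσ : σ ≫ s = t) (hσU : ∀ w : W, σ w ∈ U)
    (hWAS : ArithmeticallySpecialThrough t
      {w : W | IsIrreducible (closure {x : X | ∃ γ ∈ G, γ.hom.left (σ w) = x})})
    (hdense : Dense {x : X | ∃ γ ∈ G, ∃ w : W, γ.hom.left (σ w) = x}) :
    ArithmeticallySpecial (U.ι ≫ s) :=
  have := hX.isIntegral
  arithmeticallySpecial_of_through s hAS G hG U hU t σ hσ hσU hWAS hdense

end Pool.Agent.Results.MP_84b56d_ag.MovingOrbits
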